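import Pool.Agent.H.MP_4cdc07_co.Walsh

set_option autoImplicit false

namespace Pool.Agent.H.MP_4cdc07_co

open Finset

variable {n : ℕ}

def Plat (F : V n → V n) : Prop :=
  ∀ v ≠ 0, ∃ l : ℝ, 0 ≤ l ∧
    ∀ u, (W F u v : ℝ) = 0 ∨ (W F u v : ℝ) = l ∨ (W F u v : ℝ) = -l

def Apn (F : V n → V n) : Prop :=
  ∀ a ≠ 0, ∀ b, (univ.filter fun x => F x + F (x + a) = b).card ≤ 2

lemma setup (hn : 1 ≤ n) (F : V n → V n) (hP : Plat F) (hA : Apn F) :
    ∃ i : V n → ℕ, i 0 = n ∧ (∀ v, n ≤ 2 * i v ∧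
      (W F 0 v = 0 ∨ W F 0 v = 2 ^ i v ∨ W F 0 v = -2 ^ i v) ∧ (n = 2 * i v → W F 0 v ≠ 0)) ∧
      (∀ a b, b ≠ F a →
        6 * (mult F (a, b) : ℤ) = ∑ v, 2 ^ (2 * i v - n) * chi (v ⬝ᵥ (b + F a))) ∧
      ∑ v, (2 : ℤ) ^ (2 * i v - n) = 3 * 2 ^ n - 2 := by
  have h0 : ∀ v : V n, ∃ i : ℕ, (v = 0 → i = n) ∧ n ≤ 2 * i ∧
      (∀ u, W F u v = 0 ∨ W F u v = 2 ^ i ∨ W F u v = -2 ^ i) ∧
      (n = 2 * i → ∀ u, W F u v ≠ 0) := by
    intro v
    by_cases hv : v = 0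
    · subst hv
      refine ⟨n, fun _ => rfl, by omega, fun u => ?_, fun h => by omega⟩
      rw [W_zero]; split_ifs <;> simp
    · obtain ⟨l, hl, h⟩ := hP v hv
      obtain ⟨i, h1, h2, h3⟩ := plat_pow F v l hl h
      exact ⟨i, fun e => absurd e hv, h1, h2, h3⟩
  choose i hi0 hi1 hi2 hi3 using h0
  have hN : ∀ a b, (N F a b : ℤ) = ∑ v, 2 ^ (2 * i v - n) * chi (v ⬝ᵥ (b + F a)) := by
    intro a b
    have h := N_formula F (fun v => 2 ^ n * 2 ^ (2 * i v - n)) (by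
      intro u v
      have e : (2 : ℤ) ^ n * 2 ^ (2 * i v - n) = (2 ^ i v) ^ 2 := by
        rw [← pow_add, ← pow_mul]; congr 1; have := hi1 v; omega
      simp only [e]
      rcases hi2 v u with h | h | h <;> rw [h] <;> ring) a b
    simp only [mul_assoc, ← mul_sum] at h
    exact mul_left_cancel₀ (by positivity) h
  refine ⟨i, hi0 0 rfl, fun v => ⟨hi1 v, hi2 v 0, fun h => hi3 v h 0⟩, fun a b hb => ?_, ?_⟩
  · rw [← hN, N_mult F a b hb]; push_cast; ring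
  · rw [← N_apn F hA, hN]
    simp [add_self, chi_zero]

lemma tfun (s : ℕ) (F : V (2 * s) → V (2 * s)) (i : V (2 * s) → ℕ)
    (h : ∀ v, 2 * s ≤ 2 * i v ∧
      (W F 0 v = 0 ∨ W F 0 v = 2 ^ i v ∨ W F 0 v = -2 ^ i v) ∧ (2 * s = 2 * i v → W F 0 v ≠ 0)) :
    ∃ t : V (2 * s) → ℤ, ∀ v, W F 0 v = 2 ^ s * t v ∧
      (((2 : ℤ) ^ (2 * i v - 2 * s) = 1 ∧ t v % 2 = 1) ∨
        ((2 : ℤ) ^ (2 * i v - 2 * s) % 4 = 0 ∧ t v % 2 = 0)) := by
  have h0 : ∀ v, ∃ t : ℤ, W F 0 v = 2 ^ s * t ∧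
      (((2 : ℤ) ^ (2 * i v - 2 * s) = 1 ∧ t % 2 = 1) ∨
        ((2 : ℤ) ^ (2 * i v - 2 * s) % 4 = 0 ∧ t % 2 = 0)) := by
    intro v
    obtain ⟨h1, h2, h3⟩ := h v
    by_cases hs : i v = s
    · rw [hs] at h2 h3 ⊢
      rcases h2 with h2 | h2 | h2
      · exact absurd h2 (h3 rfl)
      · exact ⟨1, by rw [h2]; ring, Or.inl ⟨by simp, by norm_num⟩⟩
      · exact ⟨-1, by rw [h2]; ring, Or.inl ⟨by simp, by norm_num⟩⟩
    · obtain ⟨k, hk⟩ : ∃ k, i v = s + k + 1 := ⟨i v - s - 1, by omega⟩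
      have e : (2 : ℤ) ^ (2 * i v - 2 * s) % 4 = 0 := by
        have : 2 * i v - 2 * s = 2 * k + 2 := by omega
        rw [this, pow_add]; omega
      rw [hk] at h2
      rcases h2 with h2 | h2 | h2
      · exact ⟨0, by rw [h2]; ring, Or.inr ⟨e, by norm_num⟩⟩
      · exact ⟨2 ^ k * 2, by rw [h2]; ring, Or.inr ⟨e, by omega⟩⟩
      · exact ⟨-2 ^ k * 2, by rw [h2]; ring, Or.inr ⟨e, by omega⟩⟩
  choose t ht using h0
  exact ⟨t, ht⟩

lemma W0_ft (F : V n → V n) (e : V n → ℤ) (v : V n) :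
    ∑ x, chi (v ⬝ᵥ F x) * e x = ft (fun y => ∑ x with F x = y, e x) v := by
  unfold ft
  rw [← sum_fiberwise univ F]
  refine sum_congr rfl fun y _ => ?_
  rw [mul_sum]
  refine sum_congr rfl fun x hx => ?_
  rw [(mem_filter.1 hx).2]

lemma W0 (F : V n → V n) (v : V n) : W F 0 v = ∑ x, chi (v ⬝ᵥ F x) := by
  simp [W]

theorem odd_mult (hn : 3 ≤ n) (F : V n → V n) (hP : Plat F) (hA : Apn F) (a b : V n)
    (hb : b ≠ F a) : Odd (mult F (a, b)) := by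
  obtain ⟨i, hi0, hi, hm, hs⟩ := setup (by omega) F hP hA
  have hm := hm a b hb
  set c := b + F a with hc
  have hc0 : c ≠ 0 := fun e => hb ((add_eq_zero_iff' _ _).1 e)
  have ho := orth c
  rw [if_neg hc0] at ho
  rw [Nat.odd_iff]
  rcases Nat.even_or_odd' n with ⟨s, rfl | rfl⟩
  · obtain ⟨t, ht⟩ := tfun s F i hi
    obtain ⟨k, rfl⟩ : ∃ k, s = k + 2 := ⟨s - 2, by omega⟩
    set μ : V (2 * (k + 2)) → ℤ := fun y => ∑ x with F x = y, 1 with hμ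
    have h1 : ∀ v, 2 ^ (k + 2) * t v = ft μ v := by
      intro v
      rw [← (ht v).1, W0, hμ, ← W0_ft]; simp
    have h2 := ft_inv μ 0
    have h3 := ft_inv μ c
    simp only [← h1, mul_assoc, ← mul_sum, dotProduct_zero, chi_zero, mul_one] at h2 h3
    have e : (2 : ℤ) ^ (2 * (k + 2)) = 2 ^ (k + 2) * (4 * 2 ^ k) := by ring
    rw [e, mul_assoc] at h2 h3
    have h2' := mul_left_cancel₀ (by positivity) h2
    have h3' := mul_left_cancel₀ (by positivity) h3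
    have h4 : (4 : ℤ) ∣ ∑ v, ((2 : ℤ) ^ (2 * i v - 2 * (k + 2)) - t v) * (1 - chi (v ⬝ᵥ c)) := by
      refine dvd_sum fun v _ => ?_
      have h5 : (2 : ℤ) ∣ (2 : ℤ) ^ (2 * i v - 2 * (k + 2)) - t v := by
        rcases (ht v).2 with h | h <;> omega
      have h6 : (2 : ℤ) ∣ 1 - chi (v ⬝ᵥ c) := by
        rcases chi_cases (v ⬝ᵥ c) with h | h <;> rw [h.2] <;> norm_num
      exact mul_dvd_mul h5 h6
    simp only [sub_mul, mul_sub, mul_one, sum_sub_distrib] at h4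
    rw [hs, h2', h3', ← hm, e] at h4
    have e2 : (2 : ℤ) ^ (k + 2) * (4 * 2 ^ k) = 4 * (2 ^ (k + 2) * 2 ^ k) := by ring
    rw [e2, mul_assoc, mul_assoc] at h4
    omega
  · have h1 : ∀ v ∈ (univ : Finset (V (2 * s + 1))),
        0 ≤ (2 : ℤ) ^ (2 * i v - (2 * s + 1)) - 2 - if v = 0 then 2 ^ (2 * s + 1) - 2 else 0 := by
      intro v _
      split_ifs with hv
      · subst hv
        rw [hi0, show 2 * (2 * s + 1) - (2 * s + 1) = 2 * s + 1 by omega]; omega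
      · have := (hi v).1
        obtain ⟨k, hk⟩ : ∃ k, 2 * i v - (2 * s + 1) = k + 1 := ⟨2 * i v - (2 * s + 1) - 1, by omega⟩
        rw [hk, pow_succ]
        have : (1 : ℤ) ≤ 2 ^ k := one_le_pow₀ (by norm_num)
        omega
    have h2 := (sum_eq_zero_iff_of_nonneg h1).1 (by
      simp only [sum_sub_distrib]
      rw [hs]
      simp [ZMod.card]
      ring)
    have h3 : ∀ v, (2 : ℤ) ^ (2 * i v - (2 * s + 1)) * chi (v ⬝ᵥ c) =
        2 * chi (v ⬝ᵥ c) + if v = 0 then 2 ^ (2 * s + 1) - 2 else 0 := by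
      intro v
      have := h2 v (mem_univ _)
      split_ifs at this ⊢ with hv
      · subst hv; simp only [zero_dotProduct, chi_zero]; omega
      · rw [show (2 : ℤ) ^ (2 * i v - (2 * s + 1)) = 2 by omega]; ring
    simp only [h3, sum_add_distrib, ← mul_sum, ho] at hm
    simp only [sum_ite_eq', mem_univ, if_true] at hm
    obtain ⟨k, rfl⟩ : ∃ k, s = k + 1 := ⟨s - 1, by omega⟩
    have e : (2 : ℤ) ^ (2 * (k + 1) + 1) = 8 * 2 ^ (2 * k) := by ring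
    rw [e] at hm
    omega

theorem lt_mult (hn : 4 ≤ n) (he : Even n) (F : V n → V n) (hP : Plat F) (hA : Apn F) (a b : V n)
    (hb : b ≠ F a) : 3 * mult F (a, b) + 1 < 2 ^ n := by
  obtain ⟨i, hi0, hi, hm, hs⟩ := setup (by omega) F hP hA
  have hm := hm a b hb
  set c := b + F a with hc
  have hc0 : c ≠ 0 := fun e => hb ((add_eq_zero_iff' _ _).1 e)
  have ho := orth c
  rw [if_neg hc0] at ho
  obtain ⟨s, rfl⟩ : ∃ s, n = 2 * s := by obtain ⟨s, h⟩ := he; exact ⟨s, by omega⟩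
  obtain ⟨t, ht⟩ := tfun s F i hi
  obtain ⟨k, rfl⟩ : ∃ k, s = k + 2 := ⟨s - 2, by omega⟩
  by_contra hlt
  push Not at hlt
  have hlt' : (2 : ℤ) ^ (2 * (k + 2)) ≤ 3 * (mult F (a, b) : ℤ) + 1 := by exact_mod_cast hlt
  have h1 : ∀ v ∈ (univ : Finset (V (2 * (k + 2)))),
      0 ≤ ((2 : ℤ) ^ (2 * i v - 2 * (k + 2)) - 1) * (1 - chi (v ⬝ᵥ c)) := by
    intro v _
    apply mul_nonneg
    · have : (1 : ℤ) ≤ 2 ^ (2 * i v - 2 * (k + 2)) := one_le_pow₀ (by norm_num)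
      omega
    · rcases chi_cases (v ⬝ᵥ c) with h | h <;> rw [h.2] <;> norm_num
  have h2 := (sum_eq_zero_iff_of_nonneg h1).1 (by
    apply le_antisymm _ (sum_nonneg h1)
    simp only [sub_mul, mul_sub, mul_one, one_mul, sum_sub_distrib]
    rw [hs, ← hm, ho]
    simp [ZMod.card]
    omega)
  have h3 : ∀ v, v ⬝ᵥ c = 1 → (2 : ℤ) ^ (2 * i v - 2 * (k + 2)) = 1 := by
    intro v hv
    have := h2 v (mem_univ _)
    rw [hv, show chi 1 = -1 by decide] at this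
    omega
  obtain ⟨w, hw⟩ := exists_dot_one hc0
  set μ : V (2 * (k + 2)) → ℤ := fun y => ∑ x with F x = y, (if w ⬝ᵥ F x = 1 then 1 else 0) with hμ
  have h4 : ∀ v, 2 ^ (k + 1) * (t v - t (v + w)) = ft μ v := by
    intro v
    apply mul_left_cancel₀ (two_ne_zero (α := ℤ))
    rw [← mul_assoc, ← pow_succ', mul_sub, ← (ht v).1, ← (ht _).1, W0, W0, hμ, ← W0_ft,
      ← sum_sub_distrib, mul_sum]
    refine sum_congr rfl fun x _ => ?_
    rw [add_dotProduct, chi_add]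
    rcases chi_cases (w ⬝ᵥ F x) with h | h <;> rw [h.2, h.1] <;> simp <;> ring
  have h5 := parseval μ
  simp only [← h4, mul_pow, ← mul_sum] at h5
  have e : (2 : ℤ) ^ (2 * (k + 2)) = (2 ^ (k + 1)) ^ 2 * 4 := by ring
  rw [e, mul_assoc] at h5
  have h5' := mul_left_cancel₀ (by positivity) h5
  have h6 : (2 : ℤ) ∣ ∑ y, (μ y ^ 2 - μ y) := by
    refine dvd_sum fun y _ => ?_
    have := Int.even_mul_pred_self (μ y)
    rw [show μ y ^ 2 - μ y = μ y * (μ y - 1) by ring]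
    exact this.two_dvd
  have h7 : ∑ y, μ y = 2 * (2 ^ k * (t 0 - t (0 + w))) := by
    rw [← mul_assoc, ← pow_succ', h4]; simp [ft, chi_zero]
  rw [sum_sub_distrib, h7] at h6
  have h8 : ∑ v, (t v - t (v + w)) ^ 2 * chi (v ⬝ᵥ c) = 0 := by
    apply sum_flip _ w
    intro v
    rw [add_assoc, add_self, add_zero, add_dotProduct, hw, chi_add, show chi 1 = -1 by decide]
    ring
  have h9 : (8 : ℤ) ∣ ∑ v, ((t v - t (v + w)) ^ 2 + (t v - t (v + w)) ^ 2 * chi (v ⬝ᵥ c)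
      - 2 + 2 * 2 ^ (2 * i v - 2 * (k + 2))) := by
    refine dvd_sum fun v _ => ?_
    rcases chi_cases (v ⬝ᵥ c) with h | h
    · have hw1 : (v + w) ⬝ᵥ c = 1 := by rw [add_dotProduct, h.1, hw, zero_add]
      have h10 := h3 _ hw1
      have h11 : t (v + w) % 2 = 1 := by
        rcases (ht (v + w)).2 with h' | h'
        · exact h'.2
        · rw [h10] at h'; omega
      rw [h.2]
      rcases (ht v).2 with h' | h'
      · obtain ⟨r, hr⟩ : ∃ r, t v - t (v + w) = 2 * r := ⟨(t v - t (v + w)) / 2, by omega⟩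
        rw [hr, h'.1]
        exact ⟨r ^ 2, by ring⟩
      · obtain ⟨r, hr⟩ : ∃ r, t v - t (v + w) = 2 * r + 1 := ⟨(t v - t (v + w)) / 2, by omega⟩
        obtain ⟨q, hq⟩ : ∃ q, (2 : ℤ) ^ (2 * i v - 2 * (k + 2)) = 4 * q :=
          ⟨_, (Int.mul_ediv_cancel' (Int.dvd_of_emod_eq_zero h'.1)).symm⟩
        rw [hr, hq]
        exact ⟨r ^ 2 + r + q, by ring⟩
    · rw [h.2, h3 v h.1]; simp
  simp only [sum_add_distrib, sum_sub_distrib, ← mul_sum] at h9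
  rw [h8, h5', hs] at h9
  simp only [sum_const, card_univ, card_V, nsmul_eq_mul] at h9
  push_cast at h9
  have e2 : (2 : ℤ) ^ (2 * (k + 2)) = 16 * 2 ^ (2 * k) := by ring
  rw [e2] at h9
  omega

end Pool.Agent.H.MP_4cdc07_co
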