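import Mathlib

set_option autoImplicit false

namespace Pool.Agent.H.MP_4cdc07_co

open Finset

abbrev V (n : ℕ) := Fin n → ZMod 2

def chi (t : ZMod 2) : ℤ := (-1) ^ t.val

lemma chi_zero : chi 0 = 1 := by decide

lemma chi_add (s t : ZMod 2) : chi (s + t) = chi s * chi t := by
  revert s t; decide

lemma chi_sq (t : ZMod 2) : chi t * chi t = 1 := by revert t; decide

lemma chi_cases (t : ZMod 2) : (t = 0 ∧ chi t = 1) ∨ (t = 1 ∧ chi t = -1) := by
  revert t; decide

variable {n : ℕ}

lemma add_self (x : V n) : x + x = 0 := by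
  funext i
  simp [CharTwo.add_self_eq_zero]

lemma card_V : Fintype.card (V n) = 2 ^ n := by simp [ZMod.card]

lemma exists_dot_one {c : V n} (hc : c ≠ 0) : ∃ w : V n, w ⬝ᵥ c = 1 := by
  obtain ⟨i, hi⟩ : ∃ i, c i ≠ 0 := by
    by_contra h
    push Not at h
    exact hc (funext h)
  refine ⟨Pi.single i 1, ?_⟩
  rw [single_one_dotProduct]
  have : ∀ t : ZMod 2, t ≠ 0 → t = 1 := by decide
  exact this _ hi

lemma sum_flip (g : V n → ℤ) (w : V n) (h : ∀ v, g (v + w) = - g v) : ∑ v, g v = 0 := by
  have h1 : ∑ v, g (v + w) = ∑ v, g v := Equiv.sum_comp (Equiv.addRight w) g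
  simp only [h, sum_neg_distrib] at h1
  omega

lemma orth (c : V n) : ∑ v : V n, chi (v ⬝ᵥ c) = if c = 0 then 2 ^ n else 0 := by
  split_ifs with hc
  · subst hc
    simp [chi_zero, ZMod.card]
  · obtain ⟨w, hw⟩ := exists_dot_one hc
    apply sum_flip _ w
    intro v
    rw [add_dotProduct, hw, chi_add]
    have : chi 1 = -1 := by decide
    rw [this]; ring

lemma add_eq_zero_iff' (x y : V n) : x + y = 0 ↔ x = y := by
  constructor
  · intro h
    have : x + (x + y) = x := by rw [h, add_zero]
    rw [← add_assoc, add_self, zero_add] at this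
    exact this.symm
  · rintro rfl; exact add_self x

def ft (f : V n → ℤ) (u : V n) : ℤ := ∑ x, chi (u ⬝ᵥ x) * f x

lemma ft_inv (f : V n → ℤ) (a : V n) : ∑ u, ft f u * chi (u ⬝ᵥ a) = 2 ^ n * f a := by
  unfold ft
  simp only [sum_mul]
  rw [sum_comm]
  have : ∀ x, ∑ u : V n, chi (u ⬝ᵥ x) * f x * chi (u ⬝ᵥ a) = (if x = a then 2 ^ n else 0) * f x := by
    intro x
    have e : (if x = a then (2 : ℤ) ^ n else 0) = if x + a = 0 then 2 ^ n else 0 := by
      simp only [add_eq_zero_iff']
    rw [e, ← orth, sum_mul]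
    refine sum_congr rfl fun u _ => ?_
    rw [dotProduct_add, chi_add]; ring
  simp only [this, ite_mul, zero_mul]
  simp

lemma ft_mul (f g : V n → ℤ) (u : V n) :
    ft f u * ft g u = ft (fun a => ∑ x, f x * g (a + x)) u := by
  unfold ft
  simp only [mul_sum, sum_mul]
  rw [sum_comm]
  conv_rhs => rw [sum_comm]
  refine sum_congr rfl fun x _ => ?_
  rw [← Equiv.sum_comp (Equiv.addRight x)]
  refine sum_congr rfl fun a _ => ?_
  simp only [Equiv.coe_addRight]
  rw [dotProduct_add, chi_add]
  have := chi_sq (u ⬝ᵥ x)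
  linear_combination (chi (u ⬝ᵥ a) * f x * g (a + x)) * this

lemma parseval (f : V n → ℤ) : ∑ u, ft f u ^ 2 = 2 ^ n * ∑ x, f x ^ 2 := by
  have h := ft_inv (fun a => ∑ x, f x * f (a + x)) 0
  simp only [← ft_mul, dotProduct_zero, chi_zero, mul_one, zero_add] at h
  simpa [sq] using h

lemma cube (f : V n → ℤ) (a : V n) :
    ∑ u, ft f u ^ 3 * chi (u ⬝ᵥ a) = 2 ^ n * ∑ x, ∑ y, f x * f y * f (a + x + y) := by
  have h := ft_inv (fun a => ∑ x, f x * (fun b => ∑ y, f y * f (b + y)) (a + x)) a
  have e : ∀ u, ft f u ^ 3 =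
      ft (fun a => ∑ x, f x * (fun b => ∑ y, f y * f (b + y)) (a + x)) u := fun u => by
    rw [← ft_mul f (fun b => ∑ y, f y * f (b + y)), ← ft_mul f f]; ring
  simp only [e]
  rw [h]
  simp only [mul_sum, mul_assoc]

def W (F : V n → V n) (u v : V n) : ℤ := ∑ x, chi (u ⬝ᵥ x + v ⬝ᵥ F x)

lemma W_eq (F : V n → V n) (u v : V n) : W F u v = ft (fun x => chi (v ⬝ᵥ F x)) u := by
  unfold W ft
  simp only [chi_add]

def N (F : V n → V n) (a b : V n) : ℕ :=
  (univ.filter fun p : V n × V n => F p.1 + F p.2 + F (a + p.1 + p.2) = b).card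

lemma plat_pow (F : V n → V n) (v : V n) (l : ℝ) (hl : 0 ≤ l)
    (h : ∀ u, (W F u v : ℝ) = 0 ∨ (W F u v : ℝ) = l ∨ (W F u v : ℝ) = -l) :
    ∃ i : ℕ, n ≤ 2 * i ∧ (∀ u, W F u v = 0 ∨ W F u v = 2 ^ i ∨ W F u v = -2 ^ i) ∧
      (n = 2 * i → ∀ u, W F u v ≠ 0) := by
  have hP : ∑ u, W F u v ^ 2 = 2 ^ n * 2 ^ n := by
    simp only [W_eq]
    rw [parseval]
    simp only [sq, chi_sq]
    simp [ZMod.card]
  obtain ⟨u0, hu0⟩ : ∃ u, W F u v ≠ 0 := by
    by_contra hh
    push Not at hh
    simp only [hh] at hP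
    simp at hP
  set k : ℕ := (W F u0 v).natAbs with hk
  have hlk : l = (k : ℝ) := by
    have : ((k : ℤ) : ℝ) = |(W F u0 v : ℝ)| := by
      rw [hk, Int.natCast_natAbs]; simp
    rcases h u0 with h1 | h1 | h1
    · exact absurd (by exact_mod_cast h1) hu0
    · rw [h1, abs_of_nonneg hl] at this; exact_mod_cast this.symm
    · rw [h1, abs_neg, abs_of_nonneg hl] at this; exact_mod_cast this.symm
  have h' : ∀ u, W F u v = 0 ∨ W F u v = k ∨ W F u v = -k := by
    intro u
    rcases h u with h1 | h1 | h1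
    · left; exact_mod_cast h1
    · right; left; rw [hlk] at h1; exact_mod_cast h1
    · right; right; rw [hlk] at h1; exact_mod_cast h1
  set K : ℕ := (univ.filter fun u => W F u v ≠ 0).card with hK
  have hS : ∑ u, W F u v ^ 2 = (K : ℤ) * k ^ 2 := by
    rw [hK, card_filter]
    push_cast
    rw [sum_mul]
    refine sum_congr rfl fun u _ => ?_
    rcases h' u with h1 | h1 | h1
    · simp [h1]
    · by_cases h0 : W F u v = 0
      · simp [h0]
      · rw [if_pos h0, h1]; ring
    · by_cases h0 : W F u v = 0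
      · simp [h0]
      · rw [if_pos h0, h1]; ring
  have hE : K * k ^ 2 = 2 ^ n * 2 ^ n := by
    rw [hS] at hP; exact_mod_cast hP
  have hKle : K ≤ 2 ^ n := by
    rw [hK, ← card_V]; exact card_le_univ _
  have hd : k ∣ 2 ^ (2 * n) := by
    refine ⟨K * k, ?_⟩
    rw [two_mul, pow_add, ← hE]; ring
  obtain ⟨i, -, hi⟩ := (Nat.dvd_prime_pow Nat.prime_two).1 hd
  refine ⟨i, ?_, ?_, ?_⟩
  · by_contra hlt
    push Not at hlt
    have h1 : k ^ 2 < 2 ^ n := by
      rw [hi, ← pow_mul, mul_comm]; exact Nat.pow_lt_pow_right (by norm_num) hlt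
    have h2 : K * k ^ 2 < 2 ^ n * 2 ^ n :=
      lt_of_le_of_lt (Nat.mul_le_mul_right _ hKle) (Nat.mul_lt_mul_of_pos_left h1 (by positivity))
    omega
  · intro u
    have := h' u
    rw [hi] at this
    exact_mod_cast this
  · intro hn u
    have h1 : k ^ 2 = 2 ^ n := by rw [hi, ← pow_mul, mul_comm, ← hn]
    rw [h1] at hE
    have h2 : K = 2 ^ n := Nat.eq_of_mul_eq_mul_right (by positivity) hE
    have h3 : (univ.filter fun u => W F u v ≠ 0) = univ := by
      apply eq_univ_of_card
      rw [← hK, h2, card_V]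
    have := h3 ▸ mem_univ u
    simpa using this

lemma W_zero (F : V n → V n) (u : V n) : W F u 0 = if u = 0 then 2 ^ n else 0 := by
  unfold W
  rw [← orth]
  simp [dotProduct_comm]

lemma N_formula (F : V n → V n) (L : V n → ℤ)
    (h : ∀ u v, W F u v ^ 3 = L v * W F u v) (a b : V n) :
    2 ^ n * (N F a b : ℤ) = ∑ v, L v * chi (v ⬝ᵥ (b + F a)) := by
  have h1 : ∀ v, ∑ x, ∑ y, chi (v ⬝ᵥ F x) * chi (v ⬝ᵥ F y) * chi (v ⬝ᵥ F (a + x + y))
      = L v * chi (v ⬝ᵥ F a) := by
    intro v
    have h2 := cube (fun x => chi (v ⬝ᵥ F x)) a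
    have h3 := ft_inv (fun x => chi (v ⬝ᵥ F x)) a
    simp only [← W_eq] at h2 h3
    simp only [h, mul_assoc] at h2
    rw [← mul_sum, h3] at h2
    have h4 : (2 : ℤ) ^ n ≠ 0 := by positivity
    apply mul_left_cancel₀ h4
    simp only [mul_assoc]
    rw [← h2]; ring
  have h2 : ∀ v, L v * chi (v ⬝ᵥ (b + F a)) =
      ∑ x, ∑ y, chi (v ⬝ᵥ (F x + F y + F (a + x + y) + b)) := by
    intro v
    simp only [dotProduct_add, chi_add]
    simp only [← sum_mul]
    rw [h1]; ring
  simp only [h2]
  rw [sum_comm]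
  unfold N
  rw [card_filter, Fintype.sum_prod_type]
  push_cast
  rw [mul_sum]
  refine sum_congr rfl fun x _ => ?_
  rw [sum_comm, mul_sum]
  refine sum_congr rfl fun y _ => ?_
  rw [orth]
  simp only [add_eq_zero_iff']
  split_ifs <;> simp

lemma N_apn (F : V n → V n)
    (h : ∀ a ≠ 0, ∀ b, (univ.filter fun x => F x + F (x + a) = b).card ≤ 2) :
    (N F 0 (F 0) : ℤ) = 3 * 2 ^ n - 2 := by
  have key : ∀ x y : V n, F x + F y + F (0 + x + y) = F 0 ↔ (x = 0 ∨ y = 0 ∨ x = y) := by
    intro x y
    constructor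
    · intro he
      by_contra hc
      push Not at hc
      obtain ⟨h1, h2, h3⟩ := hc
      have hd : x + y ≠ 0 := fun e => h3 ((add_eq_zero_iff' x y).1 e)
      have h4 := h (x + y) hd (F x + F y)
      have hsub : ({x, y, 0} : Finset (V n)) ⊆
          univ.filter fun z => F z + F (z + (x + y)) = F x + F y := by
        intro z hz
        simp only [mem_insert, mem_singleton] at hz
        simp only [mem_filter, mem_univ, true_and]
        rcases hz with rfl | rfl | rfl
        · rw [← add_assoc, add_self, zero_add]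
        · rw [add_comm x z, ← add_assoc, add_self, zero_add, add_comm]
        · rw [← he, zero_add, zero_add, add_assoc, add_self, add_zero]
      have h5 := card_le_card hsub
      rw [card_insert_of_notMem (by simp [h1, h3]), card_pair h2] at h5
      omega
    · rintro (rfl | rfl | rfl)
      · rw [zero_add, zero_add, add_assoc, add_self, add_zero]
      · rw [zero_add, add_zero, add_right_comm, add_self, zero_add]
      · rw [zero_add, add_self, add_self, zero_add]
  unfold N
  simp only [key]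
  rw [card_filter, Fintype.sum_prod_type]
  push_cast
  have h1 : ∀ x : V n, ∑ y : V n, (if x = 0 ∨ y = 0 ∨ x = y then (1 : ℤ) else 0)
      = 2 + (if x = 0 then 2 ^ n - 2 else 0) := by
    intro x
    by_cases hx : x = 0
    · simp [hx, ZMod.card]
    · have : ∀ y : V n, (if x = 0 ∨ y = 0 ∨ x = y then (1 : ℤ) else 0)
          = (if y = 0 then 1 else 0) + (if x = y then 1 else 0) := by
        intro y
        by_cases hy : y = 0
        · subst hy; simp [hx]
        · simp [hx, hy]
      simp only [this, sum_add_distrib]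
      simp [hx]
  simp only [h1, sum_add_distrib]
  simp [ZMod.card]
  ring

def graph (F : V n → V n) : Finset (V n × V n) := univ.image fun x => (x, F x)

def mult (F : V n → V n) (p : V n × V n) : ℕ :=
  (((graph F).powersetCard 3).filter fun T => ∑ q ∈ T, q = p).card

lemma N_mult (F : V n → V n) (a b : V n) (hb : b ≠ F a) : N F a b = 6 * mult F (a, b) := by
  unfold N mult
  set g : V n → V n × V n := fun x => (x, F x) with hg
  have ginj : ∀ x y, g x = g y ↔ x = y := by
    intro x y; simp only [hg, Prod.mk.injEq]; exact ⟨fun h => h.1, fun h => ⟨h, by rw [h]⟩⟩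
  have dist : ∀ x y : V n, F x + F y + F (a + x + y) = b →
      x ≠ y ∧ x ≠ a + x + y ∧ y ≠ a + x + y := by
    intro x y h
    refine ⟨?_, ?_, ?_⟩
    · rintro rfl
      rw [add_self, zero_add, add_assoc, add_self, add_zero] at h
      exact hb h.symm
    · intro e
      have hy : y = a := by
        have : x + x = a + y := by
          nth_rewrite 1 [e]
          rw [add_right_comm a x y, add_assoc, add_self, add_zero]
        rw [add_self] at this
        exact ((add_eq_zero_iff' a y).1 this.symm).symm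
      rw [← e, add_right_comm, add_self, zero_add, hy] at h
      exact hb h.symm
    · intro e
      have hy : x = a := by
        have : y + y = a + x := by
          nth_rewrite 1 [e]
          rw [add_assoc, add_self, add_zero]
        rw [add_self] at this
        exact ((add_eq_zero_iff' a x).1 this.symm).symm
      rw [← e, add_assoc, add_self, add_zero, hy] at h
      exact hb h.symm
  rw [card_eq_sum_card_fiberwise (f := fun p : V n × V n => ({g p.1, g p.2, g (a + p.1 + p.2)} :
      Finset (V n × V n)))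
      (t := ((graph F).powersetCard 3).filter fun T => ∑ q ∈ T, q = (a, b))]
  · rw [mul_comm, ← smul_eq_mul, ← sum_const]
    refine sum_congr rfl fun T hT => ?_
    simp only [mem_filter, mem_powersetCard] at hT
    obtain ⟨⟨hsub, hc⟩, hs⟩ := hT
    obtain ⟨p, q, r, hpq, hpr, hqr, rfl⟩ := card_eq_three.1 hc
    have hm : ∀ s ∈ graph F, ∃ x, s = g x := by
      intro s hs
      simp only [graph, mem_image, mem_univ, true_and] at hs
      obtain ⟨x, hx⟩ := hs
      exact ⟨x, hx.symm⟩
    obtain ⟨x, rfl⟩ := hm p (hsub (by simp))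
    obtain ⟨y, rfl⟩ := hm q (hsub (by simp))
    obtain ⟨z, rfl⟩ := hm r (hsub (by simp))
    have hxy : x ≠ y := fun e => hpq (by rw [e])
    have hxz : x ≠ z := fun e => hpr (by rw [e])
    have hyz : y ≠ z := fun e => hqr (by rw [e])
    rw [sum_insert (by simp [hpq, hpr]), sum_pair hqr] at hs
    simp only [hg, Prod.mk_add_mk, Prod.mk.injEq] at hs
    obtain ⟨h1, h2⟩ := hs
    have c2 : ∀ t : V n, t + t = 0 := add_self
    have e1 : a + x + y = z := by rw [← h1]; linear_combination c2 x + c2 y
    have e2 : a + y + x = z := by rw [← h1]; linear_combination c2 x + c2 y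
    have e3 : a + x + z = y := by rw [← h1]; linear_combination c2 x + c2 z
    have e4 : a + z + x = y := by rw [← h1]; linear_combination c2 x + c2 z
    have e5 : a + y + z = x := by rw [← h1]; linear_combination c2 z + c2 y
    have e6 : a + z + y = x := by rw [← h1]; linear_combination c2 z + c2 y
    have : (filter (fun p : V n × V n => ({g p.1, g p.2, g (a + p.1 + p.2)} :
        Finset (V n × V n)) = {g x, g y, g z})
        (univ.filter fun p : V n × V n => F p.1 + F p.2 + F (a + p.1 + p.2) = b)) =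
        {(x, y), (y, x), (x, z), (z, x), (y, z), (z, y)} := by
      ext ⟨s, t⟩
      simp only [mem_filter, mem_univ, true_and, mem_insert, mem_singleton, Prod.mk.injEq]
      constructor
      · rintro ⟨h3, h4⟩
        have hst := (dist s t h3).1
        have hs : g s ∈ ({g x, g y, g z} : Finset (V n × V n)) := by rw [← h4]; simp
        have ht : g t ∈ ({g x, g y, g z} : Finset (V n × V n)) := by rw [← h4]; simp
        simp only [mem_insert, mem_singleton, ginj] at hs ht
        rcases hs with rfl | rfl | rfl <;> rcases ht with rfl | rfl | rfl <;> simp at hst ⊢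
      · rintro (⟨rfl, rfl⟩ | ⟨rfl, rfl⟩ | ⟨rfl, rfl⟩ | ⟨rfl, rfl⟩ | ⟨rfl, rfl⟩ | ⟨rfl, rfl⟩)
        · rw [e1]; exact ⟨by rw [← h2]; abel, rfl⟩
        · rw [e2]; exact ⟨by rw [← h2]; abel, by ext; simp only [mem_insert, mem_singleton]; tauto⟩
        · rw [e3]; exact ⟨by rw [← h2]; abel, by ext; simp only [mem_insert, mem_singleton]; tauto⟩
        · rw [e4]; exact ⟨by rw [← h2]; abel, by ext; simp only [mem_insert, mem_singleton]; tauto⟩
        · rw [e5]; exact ⟨by rw [← h2]; abel, by ext; simp only [mem_insert, mem_singleton]; tauto⟩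
        · rw [e6]; exact ⟨by rw [← h2]; abel, by ext; simp only [mem_insert, mem_singleton]; tauto⟩
    rw [this]
    have hyx := hxy.symm
    have hzx := hxz.symm
    have hzy := hyz.symm
    rw [card_insert_of_notMem (by simp [*]), card_insert_of_notMem (by simp [*]),
      card_insert_of_notMem (by simp [*]), card_insert_of_notMem (by simp [*]),
      card_pair (by simp [*])]
  · rintro ⟨x, y⟩ hp
    simp only [coe_filter, mem_univ, true_and, Set.mem_ofPred_eq] at hp
    obtain ⟨h1, h2, h3⟩ := dist x y hp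
    have k1 : g x ≠ g y := fun e => h1 ((ginj _ _).1 e)
    have k2 : g x ≠ g (a + x + y) := fun e => h2 ((ginj _ _).1 e)
    have k3 : g y ≠ g (a + x + y) := fun e => h3 ((ginj _ _).1 e)
    simp only [coe_filter, mem_powersetCard, Set.mem_ofPred_eq]
    refine ⟨⟨?_, card_eq_three.2 ⟨_, _, _, k1, k2, k3, rfl⟩⟩, ?_⟩
    · intro s hs
      simp only [mem_insert, mem_singleton] at hs
      rcases hs with rfl | rfl | rfl <;> exact mem_image.2 ⟨_, mem_univ _, rfl⟩
    · rw [sum_insert (by simp [k1, k2]), sum_pair k3]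
      simp only [hg, Prod.mk_add_mk, Prod.mk.injEq]
      have c2 : ∀ t : V n, t + t = 0 := add_self
      exact ⟨by linear_combination c2 x + c2 y, by rw [← hp]; abel⟩

end Pool.Agent.H.MP_4cdc07_co
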